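import Pool.Agent.helper75.S6D.Spec

/-!
# Row s6:IRR (MP_2b41e9_nt): irreducibility of the polynomials of degree 6
-/

set_option autoImplicit false

open Polynomial Finset

noncomputable section

namespace Pool.Agent.S6D

open Pool.Agent.PSA

/-- the cubic `t³ - A t² - b t - (c - 2A)` -/
def IRR_T (A b c : ℤ) : ℤ[X] := X ^ 3 - C A * X ^ 2 - C b * X - C (c - 2 * A)

theorem IRR_Td (A b c : ℤ) : (IRR_T A b c).Monic ∧ (IRR_T A b c).natDegree = 3 := by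
  constructor
  · unfold IRR_T
    monicity!
  · unfold IRR_T
    compute_degree!

theorem IRR_Ti (A b c : ℤ) (h : NoInt A b c) : Irreducible (IRR_T A b c) := by
  obtain ⟨h1, h2⟩ := IRR_Td A b c
  rw [h1.irreducible_iff_roots_eq_zero_of_degree_le_three (by omega) (by omega)]
  rw [Multiset.eq_zero_iff_forall_notMem]
  intro r hr
  rw [mem_roots h1.ne_zero, IsRoot] at hr
  apply h r
  have e : eval r (IRR_T A b c) = r ^ 3 - A * r ^ 2 - b * r - (c - 2 * A) := by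
    simp [IRR_T]
  rw [← e]
  exact hr

/-- a rational polynomial vanishes at a root of `T` iff it is a multiple of `T` -/
theorem IRR_dvd (A b c : ℤ) (h : NoInt A b c) (x : ℝ) (hx : x ^ 3 - A * x ^ 2 - b * x - (c - 2 * A) = 0)
    (p : ℚ[X]) : aeval x p = 0 ↔ (IRR_T A b c).map (algebraMap ℤ ℚ) ∣ p := by
  obtain ⟨h1, h2⟩ := IRR_Td A b c
  have h3 : Irreducible ((IRR_T A b c).map (algebraMap ℤ ℚ)) :=
    (h1.irreducible_iff_irreducible_map_fraction_map).1 (IRR_Ti A b c h)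
  have h4 : aeval x ((IRR_T A b c).map (algebraMap ℤ ℚ)) = 0 := by
    rw [aeval_map_algebraMap]
    unfold IRR_T
    simp only [map_sub, map_mul, map_pow, aeval_X, eq_intCast, map_intCast, map_ofNat]
    rw [← hx]
  have h5 := minpoly.eq_of_irreducible_of_monic h3 h4 (h1.map _)
  constructor
  · intro hp
    rw [h5]
    exact minpoly.dvd ℚ x hp
  · rintro ⟨q, rfl⟩
    rw [map_mul, h4, zero_mul]

/-- a rational polynomial of degree at most 2 with the root `u` is 0 -/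
theorem IRR_zero (A b c : ℤ) (h : NoInt A b c) (x : ℝ) (hx : x ^ 3 - A * x ^ 2 - b * x - (c - 2 * A) = 0)
    (r s t : ℤ) (h0 : (r : ℝ) * x ^ 2 + s * x + t = 0) : r = 0 ∧ s = 0 ∧ t = 0 := by
  obtain ⟨h1, h2⟩ := IRR_Td A b c
  have h3 : aeval x (C (r : ℚ) * X ^ 2 + C (s : ℚ) * X + C (t : ℚ)) = 0 := by
    simp only [map_add, map_mul, map_pow, aeval_X, aeval_C, eq_ratCast, Rat.cast_intCast]
    exact h0
  have h4 := (IRR_dvd A b c h x hx _).1 h3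
  have h5 : C (r : ℚ) * X ^ 2 + C (s : ℚ) * X + C (t : ℚ) = 0 := by
    refine eq_zero_of_dvd_of_natDegree_lt h4 ?_
    rw [h1.natDegree_map, h2]
    have h6 : (C (r : ℚ) * X ^ 2 + C (s : ℚ) * X + C (t : ℚ)).natDegree ≤ 2 := by compute_degree
    omega
  have c0 := congrArg (fun p => coeff p 0) h5
  have c1 := congrArg (fun p => coeff p 1) h5
  have c2 := congrArg (fun p => coeff p 2) h5
  simp only [coeff_add, coeff_C_mul, coeff_X_pow, coeff_X, coeff_C, coeff_zero] at c0 c1 c2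
  norm_num at c0 c1 c2
  exact ⟨c2, c1, c0⟩

/-- the powers `1, ..., Λ ^ 5` are linearly independent -/
theorem IRR_lin (A b c : ℤ) (u v L Λ : ℝ) (hR : Rt A b c u v L) (hu : |u| < 2) (hΛ : 1 < Λ)
    (hL : Λ + Λ⁻¹ = L) (hN : NoInt A b c) (g : ℕ → ℤ)
    (h0 : (g 0 : ℝ) + g 1 * Λ + g 2 * Λ ^ 2 + g 3 * Λ ^ 3 + g 4 * Λ ^ 4 + g 5 * Λ ^ 5 = 0) :
    g 0 = 0 ∧ g 1 = 0 ∧ g 2 = 0 ∧ g 3 = 0 ∧ g 4 = 0 ∧ g 5 = 0 := by
  obtain ⟨hA, hb, hc⟩ := hR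
  have hΛ0 : Λ ≠ 0 := by linarith
  have hinv : Λ⁻¹ = L - Λ := by linarith
  have hq : Λ ^ 2 = L * Λ - 1 := by
    have h1 : Λ * (L - Λ) = 1 := by rw [← hinv]; exact mul_inv_cancel₀ hΛ0
    linarith
  have hTu : u ^ 3 - A * u ^ 2 - b * u - (c - 2 * A) = 0 := by rw [hA, hb, hc, hA]; ring
  have hTL : L ^ 3 - A * L ^ 2 - b * L - (c - 2 * A) = 0 := by rw [hA, hb, hc, hA]; ring
  -- the two polynomials
  set r₁ : ℤ := g 0 with hr₁
  set s₁ : ℤ := g 1 - g 5 with hs₁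
  set t₁ : ℤ := g 2 - g 4 - g 0 with ht₁
  set r₂ : ℤ := g 5 with hr₂
  set s₂ : ℤ := g 4 - g 0 with hs₂
  set t₂ : ℤ := g 3 - g 1 - g 5 with ht₂
  have h3 : Λ ^ 3 = (L ^ 2 - 1) * Λ - L := by
    have : Λ ^ 3 = Λ * Λ ^ 2 := by ring
    rw [this, hq]
    linear_combination L * hq
  have h4 : Λ ^ 4 = Λ ^ 2 * (L * Λ - 1) := by rw [← hq]; ring
  have h5 : Λ ^ 5 = Λ ^ 2 * ((L ^ 2 - 1) * Λ - L) := by rw [← h3]; ring
  have hαβ : ((r₁ : ℝ) * L ^ 2 + s₁ * L + t₁) + ((r₂ : ℝ) * L ^ 2 + s₂ * L + t₂) * Λ = 0 := by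
    have hne : Λ ^ 2 ≠ 0 := pow_ne_zero 2 hΛ0
    have key : Λ ^ 2 * (((r₁ : ℝ) * L ^ 2 + s₁ * L + t₁) + ((r₂ : ℝ) * L ^ 2 + s₂ * L + t₂) * Λ) = 0 := by
      have e0 : Λ ^ 2 * (L ^ 2 - 1 - L * Λ) = 1 := by
        have h6 : Λ ^ 2 * (L ^ 2 - 1 - L * Λ) = (Λ * (L - Λ)) ^ 2 + Λ ^ 2 * (L * Λ - 1 - Λ ^ 2) := by ring
        have h7 : Λ * (L - Λ) = 1 := by linarith
        rw [h6, h7, ← hq]
        ring
      have e1 : Λ ^ 2 * (L - Λ) = Λ := by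
        have h7 : Λ * (L - Λ) = 1 := by linarith
        calc Λ ^ 2 * (L - Λ) = Λ * (Λ * (L - Λ)) := by ring
          _ = Λ := by rw [h7, mul_one]
      rw [h4, h5, h3] at h0
      simp only [hr₁, hs₁, ht₁, hr₂, hs₂, ht₂]
      push_cast
      have e3 : Λ ^ 2 * Λ = (L ^ 2 - 1) * Λ - L := by rw [← h3]; ring
      linear_combination h0 + (g 0 : ℝ) * e0 + (g 1 : ℝ) * e1 + (g 3 : ℝ) * e3
    exact (mul_eq_zero.1 key).resolve_left hne
  -- the norm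
  have hHL : ((r₁ : ℝ) * L ^ 2 + s₁ * L + t₁) ^ 2 +
      L * ((r₁ : ℝ) * L ^ 2 + s₁ * L + t₁) * ((r₂ : ℝ) * L ^ 2 + s₂ * L + t₂) +
      ((r₂ : ℝ) * L ^ 2 + s₂ * L + t₂) ^ 2 = 0 := by
    generalize ((r₁ : ℝ) * L ^ 2 + s₁ * L + t₁) = α at *
    generalize ((r₂ : ℝ) * L ^ 2 + s₂ * L + t₂) = β at *
    have hα : α = -(β * Λ) := by linarith
    rw [hα]
    linear_combination β ^ 2 * hq
  have hHu : ((r₁ : ℝ) * u ^ 2 + s₁ * u + t₁) ^ 2 +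
      u * ((r₁ : ℝ) * u ^ 2 + s₁ * u + t₁) * ((r₂ : ℝ) * u ^ 2 + s₂ * u + t₂) +
      ((r₂ : ℝ) * u ^ 2 + s₂ * u + t₂) ^ 2 = 0 := by
    let P : ℚ[X] := (C (r₁ : ℚ) * X ^ 2 + C (s₁ : ℚ) * X + C (t₁ : ℚ)) ^ 2 +
      X * (C (r₁ : ℚ) * X ^ 2 + C (s₁ : ℚ) * X + C (t₁ : ℚ)) * (C (r₂ : ℚ) * X ^ 2 + C (s₂ : ℚ) * X + C (t₂ : ℚ)) +
      (C (r₂ : ℚ) * X ^ 2 + C (s₂ : ℚ) * X + C (t₂ : ℚ)) ^ 2
    have hP : ∀ x : ℝ, aeval x P = ((r₁ : ℝ) * x ^ 2 + s₁ * x + t₁) ^ 2 +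
        x * ((r₁ : ℝ) * x ^ 2 + s₁ * x + t₁) * ((r₂ : ℝ) * x ^ 2 + s₂ * x + t₂) +
        ((r₂ : ℝ) * x ^ 2 + s₂ * x + t₂) ^ 2 := by
      intro x
      simp only [P, map_add, map_mul, map_pow, aeval_X, aeval_C, eq_ratCast, Rat.cast_intCast]
    rw [← hP u, IRR_dvd A b c hN u hTu, ← IRR_dvd A b c hN L hTL, hP L]
    exact hHL
  -- positivity
  have hpos : ∀ α β : ℝ, α ^ 2 + u * α * β + β ^ 2 = 0 → α = 0 ∧ β = 0 := by
    intro α β h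
    obtain ⟨hu1, hu2⟩ := abs_lt.1 hu
    have hu3 : 0 < 4 - u ^ 2 := by nlinarith
    have h6 : (α + u / 2 * β) ^ 2 + (4 - u ^ 2) / 4 * β ^ 2 = 0 := by linear_combination h
    have h7 : 0 ≤ (α + u / 2 * β) ^ 2 := sq_nonneg _
    have h8 : 0 ≤ (4 - u ^ 2) / 4 * β ^ 2 := by positivity
    have h9 : (4 - u ^ 2) / 4 * β ^ 2 = 0 := by linarith
    have hβ : β = 0 := by
      rcases mul_eq_zero.1 h9 with h10 | h10
      · linarith
      · exact pow_eq_zero_iff (two_ne_zero) |>.1 h10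
    rw [hβ] at h
    refine ⟨?_, hβ⟩
    have h11 : α ^ 2 = 0 := by linarith
    exact pow_eq_zero_iff (two_ne_zero) |>.1 h11
  obtain ⟨k1, k2⟩ := hpos _ _ hHu
  obtain ⟨a1, a2, a3⟩ := IRR_zero A b c hN u hTu r₁ s₁ t₁ k1
  obtain ⟨b1, b2, b3⟩ := IRR_zero A b c hN u hTu r₂ s₂ t₂ k2
  refine ⟨a1, ?_, ?_, ?_, ?_, b1⟩ <;> omega

theorem IRR (hP6C : P6C_stmt) : IRR_stmt := by
  intro A b c u v L Λ hR hu hv hL2 hΛ hL hN
  obtain ⟨hmon, hdeg, -⟩ := hP6C A b c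
  have hΛ0 : Λ ≠ 0 := by linarith
  have hq : Λ ^ 2 = L * Λ - 1 := by
    have h1 : Λ * Λ⁻¹ = 1 := mul_inv_cancel₀ hΛ0
    have h2 : Λ⁻¹ = L - Λ := by linarith
    rw [h2] at h1
    linarith
  have hTL : L ^ 3 - A * L ^ 2 - b * L - (c - 2 * A) = 0 := by
    obtain ⟨hA, hb, hc⟩ := hR
    rw [hA, hb, hc, hA]; ring
  have hroot : aeval Λ (P6 A b c) = 0 := by
    unfold P6
    simp only [map_add, map_sub, map_mul, map_pow, aeval_X, map_one,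
      eq_intCast, map_intCast, map_ofNat]
    have h1 : Λ * Λ⁻¹ = 1 := mul_inv_cancel₀ hΛ0
    have h2 : Λ⁻¹ = L - Λ := by linarith
    rw [h2] at h1
    have e : Λ ^ 3 * (L ^ 3 - A * L ^ 2 - b * L - (c - 2 * A)) = 0 := by rw [hTL, mul_zero]
    have hLΛ : L * Λ = Λ ^ 2 + 1 := by linarith
    have e2 : Λ ^ 3 * L ^ 3 = (Λ ^ 2 + 1) ^ 3 := by rw [← hLΛ]; ring
    have e3 : Λ ^ 3 * L ^ 2 = (Λ ^ 2 + 1) ^ 2 * Λ := by rw [← hLΛ]; ring
    have e4 : Λ ^ 3 * L = (Λ ^ 2 + 1) * Λ ^ 2 := by rw [← hLΛ]; ring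
    linear_combination e - e2 + (A : ℝ) * e3 + (b : ℝ) * e4
  have hint : IsIntegral ℤ Λ := ⟨P6 A b c, hmon, hroot⟩
  have hdvd : minpoly ℤ Λ ∣ P6 A b c := minpoly.isIntegrallyClosed_dvd hint hroot
  have hm := minpoly.monic hint
  have h6 : 6 ≤ (minpoly ℤ Λ).natDegree := by
    by_contra hlt
    have hlt' : (minpoly ℤ Λ).natDegree < 6 := by omega
    have h1 := minpoly.aeval ℤ Λ
    rw [aeval_eq_sum_range' hlt'] at h1
    simp only [Finset.sum_range_succ, Finset.sum_range_zero, zsmul_eq_mul, zero_add, pow_zero, mul_one,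
      pow_one] at h1
    obtain ⟨g0, g1, g2, g3, g4, g5⟩ := IRR_lin A b c u v L Λ hR hu hΛ hL hN
      (fun i => (minpoly ℤ Λ).coeff i) h1
    have h2 : minpoly ℤ Λ = 0 := by
      ext i
      rw [coeff_zero]
      rcases lt_or_ge i 6 with hi | hi
      · interval_cases i
        · exact g0
        · exact g1
        · exact g2
        · exact g3
        · exact g4
        · exact g5
      · exact coeff_eq_zero_of_natDegree_lt (by omega)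
    exact hm.ne_zero h2
  have heq : minpoly ℤ Λ = P6 A b c :=
    (eq_of_monic_of_dvd_of_natDegree_le hm hmon hdvd (by omega)).symm
  rw [← heq]
  exact minpoly.irreducible hint

end Pool.Agent.S6D
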